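import Pool.Agent.TH780.FinK

/-!
# Everything Tukey below an ultrafilter with a fusion structure is basically generated
-/

set_option autoImplicit false

namespace Pool.Agent.TH780.BG

open Set Filter

variable {α : Type} {U : Ultrafilter α} {B : Set (Set α)} {r : ℕ → Set α → Set α → Prop}
  {V : Ultrafilter ℕ} {f : Set α → Set ℕ}

/-- Members of the base with the same approximations as `X` have a subsequence whose intersection
is large. -/
theorem Fusion.bg (h : Fusion U B r) {X : Set α} (hX : X ∈ B) (X' : ℕ → Set α)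
    (hX' : ∀ n, X' n ∈ B ∧ r n (X' n) X) :
    ∃ L : Set ℕ, L.Infinite ∧ (⋂ n ∈ L, X' n) ∈ U := by
  obtain ⟨N, e, he, hN⟩ := h.reps {Y | Y ∈ B ∧ Y ⊆ X} (fun Y hY => hY.1) ⟨X, hX, subset_rfl⟩
  obtain ⟨Z, hZ, L, hL, hZL⟩ := h.fusion (fun n => (fun j => e n j ∩ X' n) '' {j | j < N n})
    (fun n => (finite_lt_nat (N n)).image _) (by
    rintro n _ ⟨j, -, rfl⟩
    exact h.inter _ (he n j).1 _ (hX' n).1)
  have hXZ := h.inter _ hX _ hZ
  refine ⟨L, hL, mem_of_superset (h.mem _ hXZ) ?_⟩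
  refine subset_iInter₂ fun n hn => ?_
  obtain ⟨j, hj, hr⟩ := hN n (X ∩ Z) ⟨hXZ, inter_subset_left⟩
  have h1 : r n (e n j ∩ X' n) (e n j) :=
    h.mon n X hX (e n j) (he n j).1 (X' n) (hX' n).1 (he n j).2 (hX' n).2
  exact (hZL _ hXZ inter_subset_right n hn _ ⟨j, hj, rfl⟩
    (h.trans _ _ _ _ h1 (h.symm _ _ _ hr))).trans inter_subset_right

/-- Witnesses for the membership of `f X` in the ultrafilters of the sets `K B r f n X`. -/
theorem Fusion.exists_witness (h : Fusion U B r) (hf : Red U V f) :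
    ∃ Z ∈ B, ∀ X ∈ B, X ⊆ Z → ∀ n, (K B r f n X).Finite ∧ ∀ q ∈ K B r f n X,
      ∃ C ∈ q, ∀ X' ∈ B, X' ⊆ Z → (f X' ∩ C).Nonempty → f X' ∈ q := by
  obtain ⟨X1, hX1, hfin⟩ := h.exists_finite hf
  obtain ⟨N, e, he, hN⟩ := h.reps B subset_rfl h.nonempty
  have hG : ∀ n j, ∃ Z ∈ B, r n Z (e n j) ∧
      ∀ q ∈ K B r f n X1, q ∉ K B r f n (e n j) → f Z ∉ q := by
    intro n j
    have h1 : ∀ q : Ultrafilter ℕ, ∃ X', q ∉ K B r f n (e n j) →
        (X' ∈ B ∧ r n X' (e n j)) ∧ f X' ∉ q := by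
      intro q
      by_cases hq : q ∈ K B r f n (e n j)
      · exact ⟨∅, fun h' => absurd hq h'⟩
      · have h3 := hq
        simp only [K, mem_ofPred_eq, not_forall] at h3
        obtain ⟨X', hX', hr, hX''⟩ := h3
        exact ⟨X', fun _ => ⟨⟨hX', hr⟩, hX''⟩⟩
    choose G hG using h1
    obtain ⟨Z, hZ, hr, -, hZG⟩ := h.inter_class n (e n j) (he n j)
      {q | q ∈ K B r f n X1 ∧ q ∉ K B r f n (e n j)} ((hfin n).subset fun q hq => hq.1) G
      (fun q hq => (hG q hq.2).1)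
    refine ⟨Z, hZ, hr, fun q hq hq' hmem => (hG q hq').2 ?_⟩
    exact mem_of_superset hmem
      (hf.mono _ (h.mem _ hZ) _ (h.mem _ (hG q hq').1.1) (hZG q ⟨hq, hq'⟩))
  choose G hGB hGr hGq using hG
  obtain ⟨Z, hZ, L, hL, hZL⟩ := h.fusion (fun n => G n '' {j | j < N n})
    (fun n => (finite_lt_nat (N n)).image _) (by
    rintro n _ ⟨j, -, rfl⟩
    exact hGB n j)
  refine ⟨Z ∩ X1, h.inter _ hZ _ hX1, fun X hX hXZ n => ⟨?_, fun q hq => ?_⟩⟩
  · exact (hfin n).subset (h.K_anti hf hX1 hX (hXZ.trans inter_subset_right))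
  · obtain ⟨n', hn'L, hn'⟩ := hL.exists_gt n
    have hq' : q ∈ K B r f n' X1 :=
      h.K_anti hf hX1 hX (hXZ.trans inter_subset_right) (h.K_level hn'.le X hq)
    refine ⟨(⋃ j ∈ {j | j < N n' ∧ q ∉ K B r f n' (e n' j)}, f (G n' j))ᶜ, ?_, ?_⟩
    · rw [Ultrafilter.compl_mem_iff_notMem,
        Ultrafilter.finite_biUnion_mem_iff ((finite_lt_nat (N n')).subset fun j hj => hj.1)]
      rintro ⟨j, hj, hmem⟩
      exact hGq n' j q hq' hj.2 hmem
    · rintro X' hX' hX'Z ⟨d, hd, hdC⟩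
      obtain ⟨j, hj, hr⟩ := hN n' X' hX'
      have h1 : X' ⊆ G n' j := hZL X' hX' (hX'Z.trans inter_subset_left) n' hn'L _
        ⟨j, hj, rfl⟩ (h.trans _ _ _ _ (hGr n' j) (h.symm _ _ _ hr))
      by_cases hqj : q ∈ K B r f n' (e n' j)
      · rw [← h.K_congr hr] at hqj
        exact h.K_self hX' hqj
      · exact absurd (mem_biUnion (show j ∈ {j | j < N n' ∧ q ∉ K B r f n' (e n' j)} from
          ⟨hj, hqj⟩) (hf.mono _ (h.mem _ hX') _ (h.mem _ (hGB n' j)) h1 hd)) hdC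

/-- If `f` is a monotone map from `U` to `V` with cofinal image, and `U` has a fusion structure,
then `V` is basically generated. -/
theorem Fusion.basically (h : Fusion U B r) (hf : Red U V f) :
    ∃ ℬ : Set (Set ℕ), (∀ X ∈ ℬ, X ∈ V) ∧ (∀ A ∈ V, ∃ X ∈ ℬ, X ⊆ A) ∧
      ∀ (X : ℕ → Set ℕ) (Y : Set ℕ), (∀ n, X n ∈ ℬ) → Y ∈ ℬ →
        (∀ m : ℕ, ∀ᶠ n in atTop, (m ∈ X n ↔ m ∈ Y)) →
        ∃ φ : ℕ → ℕ, StrictMono φ ∧ (⋂ k, X (φ k)) ∈ V := by
  obtain ⟨Z, hZ, hw⟩ := h.exists_witness hf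
  refine ⟨{Y | ∃ X ∈ B, X ⊆ Z ∧ f X = Y}, ?_, ?_, ?_⟩
  · rintro _ ⟨X, hX, -, rfl⟩
    exact hf.mem X (h.mem X hX)
  · intro A hA
    obtain ⟨A', hA', hA''⟩ := hf.cof A hA
    obtain ⟨X0, hX0, hX0'⟩ := h.base A' hA'
    have h1 := h.inter _ hX0 _ hZ
    exact ⟨_, ⟨X0 ∩ Z, h1, inter_subset_right, rfl⟩,
      (hf.mono _ (h.mem _ h1) _ hA' (inter_subset_left.trans hX0')).trans hA''⟩
  · rintro Ys _ hYs ⟨X, hX, hXZ, rfl⟩ hconv
    have h1 : ∀ n, ∀ᶠ i in atTop, ∀ q ∈ K B r f n X, Ys i ∈ q := by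
      intro n
      rw [eventually_all_finite (hw X hX hXZ n).1]
      intro q hq
      obtain ⟨C, hC, hC'⟩ := (hw X hX hXZ n).2 q hq
      obtain ⟨d, hd, hd'⟩ := Ultrafilter.nonempty_of_mem (inter_mem (h.K_self hX hq) hC)
      filter_upwards [hconv d] with i hi
      obtain ⟨X', hX', hX'Z, hX'i⟩ := hYs i
      rw [← hX'i] at hi ⊢
      exact hC' X' hX' hX'Z ⟨d, hi.2 hd, hd'⟩
    obtain ⟨φ, hφ, hφ'⟩ := extraction_forall_of_eventually h1
    have h2 : ∀ n, ∃ X' ∈ B, r n X' X ∧ f X' ⊆ Ys (φ n) := fun n => h.K_compact hf hX (hφ' n)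
    choose X' hX'B hX'r hX'f using h2
    obtain ⟨L, hL, hLU⟩ := h.bg hX X' (fun n => ⟨hX'B n, hX'r n⟩)
    have hmono := Nat.nth_strictMono (p := fun n => n ∈ L) hL
    refine ⟨fun k => φ (Nat.nth (fun n => n ∈ L) k), hφ.comp hmono, ?_⟩
    refine mem_of_superset (hf.mem _ hLU) (subset_iInter fun k => ?_)
    have h3 : Nat.nth (fun n => n ∈ L) k ∈ L := Nat.nth_mem_of_infinite hL k
    exact (hf.mono _ hLU _ (h.mem _ (hX'B _)) (biInter_subset_of_mem h3)).trans (hX'f _)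

end Pool.Agent.TH780.BG
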