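import Pool.Agent.TH780.Fusion

/-!
# The closed sets of ultrafilters attached to finite approximations are finite
-/

set_option autoImplicit false

namespace Pool.Agent.TH780.BG

open Set Filter

/-- From countably many infinite sets one can choose pairwise different elements. -/
theorem exists_inj_nat {β : Type} (S : ℕ → Set β) (hS : ∀ i, (S i).Infinite) :
    ∃ φ : ℕ → β, Function.Injective φ ∧ ∀ i, φ i ∈ S i := by
  classical
  have h : ∀ (i : ℕ) (T : Finset β), ∃ b ∈ S i, b ∉ T := fun i T => (hS i).exists_notMem_finset T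
  choose pick hpick hpick' using h
  let T : ℕ → Finset β := fun k => Nat.rec ∅ (fun i t => insert (pick i t) t) k
  have hT : ∀ k, T (k + 1) = insert (pick k (T k)) (T k) := fun k => rfl
  have hmono : ∀ i k, i ≤ k → T i ⊆ T k := by
    intro i k hik
    induction k, hik using Nat.le_induction with
    | base => exact subset_rfl
    | succ k _ ih =>
      rw [hT]
      exact ih.trans (Finset.subset_insert _ _)
  refine ⟨fun k => pick k (T k), ?_, fun i => hpick i (T i)⟩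
  have key : ∀ i k, i < k → pick i (T i) ≠ pick k (T k) := by
    intro i k hik heq
    apply hpick' k (T k)
    rw [← heq]
    exact hmono (i + 1) k hik (by rw [hT]; exact Finset.mem_insert_self _ _)
  intro i k hik
  rcases lt_trichotomy i k with h | h | h
  · exact absurd hik (key i k h)
  · exact h
  · exact absurd hik.symm (key k i h)

theorem exists_inj {ι β : Type} [Countable ι] [Nonempty ι] (S : ι → Set β)
    (hS : ∀ i, (S i).Infinite) : ∃ φ : ι → β, Function.Injective φ ∧ ∀ i, φ i ∈ S i := by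
  obtain ⟨e, he⟩ := exists_injective_nat ι
  obtain ⟨φ, h1, h2⟩ := exists_inj_nat (fun k => S (Function.invFun e k)) (fun k => hS _)
  refine ⟨φ ∘ e, h1.comp he, fun i => ?_⟩
  have := h2 (e i)
  rwa [Function.leftInverse_invFun he i] at this

/-- Disjoint finite sets of ultrafilters can be separated by a set. -/
theorem exists_sep {γ : Type} (𝒜 ℬ : Set (Ultrafilter γ)) (hA : 𝒜.Finite) (hB : ℬ.Finite)
    (h : ∀ p ∈ 𝒜, ∀ q ∈ ℬ, p ≠ q) : ∃ A : Set γ, (∀ p ∈ 𝒜, A ∈ p) ∧ ∀ q ∈ ℬ, A ∉ q := by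
  have h1 : ∀ p q : Ultrafilter γ, ∃ S : Set γ, p ≠ q → S ∈ p ∧ S ∉ q := by
    intro p q
    by_cases hpq : p = q
    · exact ⟨∅, fun h => absurd hpq h⟩
    · by_contra hcon
      push Not at hcon
      apply hpq
      apply Ultrafilter.eq_of_le
      intro s hs
      by_contra hs'
      exact (hcon sᶜ).2 (Ultrafilter.compl_mem_iff_notMem.2 hs') |> fun h3 =>
        (Ultrafilter.compl_mem_iff_notMem.1 h3) hs
  choose S hS using h1
  refine ⟨⋃ p ∈ 𝒜, ⋂ q ∈ ℬ, S p q, ?_, ?_⟩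
  · intro p hp
    have h2 : (⋂ q ∈ ℬ, S p q) ∈ (p : Filter γ) :=
      (biInter_mem hB).2 fun q hq => (hS p q (h p hp q hq)).1
    exact mem_of_superset h2 (subset_biUnion_of_mem (u := fun p => ⋂ q ∈ ℬ, S p q) hp)
  · intro q hq hmem
    obtain ⟨p, hp, h2⟩ := (Ultrafilter.finite_biUnion_mem_iff hA).1 hmem
    exact (hS p q (h p hp q hq)).2 (mem_of_superset h2 (biInter_subset_of_mem hq))

/-- `f` is a monotone map from `U` to `V` with cofinal image. -/
structure Red {α : Type} (U : Ultrafilter α) (V : Ultrafilter ℕ) (f : Set α → Set ℕ) : Prop where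
  mem : ∀ A ∈ U, f A ∈ V
  mono : ∀ A ∈ U, ∀ A' ∈ U, A ⊆ A' → f A ⊆ f A'
  cof : ∀ Q ∈ V, ∃ A ∈ U, f A ⊆ Q

/-- The set of the ultrafilters which contain `f X'` whenever `X'` has the same approximation of
level `n` as `X`. -/
def K {α : Type} (B : Set (Set α)) (r : ℕ → Set α → Set α → Prop) (f : Set α → Set ℕ) (n : ℕ)
    (X : Set α) : Set (Ultrafilter ℕ) :=
  {p | ∀ X' ∈ B, r n X' X → f X' ∈ p}

variable {α : Type} {U : Ultrafilter α} {B : Set (Set α)} {r : ℕ → Set α → Set α → Prop}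
  {V : Ultrafilter ℕ} {f : Set α → Set ℕ}

theorem Fusion.K_level (h : Fusion U B r) {m n : ℕ} (hmn : m ≤ n) (X : Set α) :
    K B r f m X ⊆ K B r f n X :=
  fun _ hp X' hX' hr => hp X' hX' (h.down' hmn hr)

theorem Fusion.K_congr (h : Fusion U B r) {n : ℕ} {X Y : Set α} (hr : r n X Y) :
    K B r f n X = K B r f n Y := by
  ext p
  constructor
  · intro hp X' hX' hr'
    exact hp X' hX' (h.trans n _ _ _ hr' (h.symm n _ _ hr))
  · intro hp X' hX' hr'
    exact hp X' hX' (h.trans n _ _ _ hr' hr)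

theorem Fusion.K_anti (h : Fusion U B r) (hf : Red U V f) {n : ℕ} {X X' : Set α} (hX : X ∈ B)
    (hX' : X' ∈ B) (hsub : X' ⊆ X) : K B r f n X' ⊆ K B r f n X := by
  intro p hp X'' hX'' hr
  have h1 := h.inter X' hX' X'' hX''
  have h2 := hp _ h1 (h.mon n X hX X' hX' X'' hX'' hsub hr)
  exact mem_of_superset h2 (hf.mono _ (h.mem _ h1) _ (h.mem _ hX'') inter_subset_right)

theorem Fusion.K_self (h : Fusion U B r) {n : ℕ} {X : Set α} (hX : X ∈ B) {p : Ultrafilter ℕ}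
    (hp : p ∈ K B r f n X) : f X ∈ p :=
  hp X hX (h.refl n X)

theorem Fusion.K_compact (h : Fusion U B r) (hf : Red U V f) {n : ℕ} {X : Set α} (hX : X ∈ B)
    {Y : Set ℕ} (hY : ∀ p ∈ K B r f n X, Y ∈ p) : ∃ X' ∈ B, r n X' X ∧ f X' ⊆ Y := by
  by_contra hcon
  push Not at hcon
  let ι := {X' : Set α // X' ∈ B ∧ r n X' X}
  let F : Filter ℕ := ⨅ x : ι, 𝓟 (f x.1 ∩ Yᶜ)
  have hne : Nonempty ι := ⟨⟨X, hX, h.refl n X⟩⟩
  have hF : F.NeBot := by
    apply iInf_neBot_of_directed'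
    · rintro ⟨X1, h1, h1'⟩ ⟨X2, h2, h2'⟩
      have h3 : r n X2 X1 := h.trans n _ _ _ h2' (h.symm n _ _ h1')
      refine ⟨⟨X1 ∩ X2, h.inter _ h1 _ h2,
        h.trans n _ _ _ (h.mon n X1 h1 X1 h1 X2 h2 subset_rfl h3) h1'⟩, ?_, ?_⟩
      · apply principal_mono.2
        exact inter_subset_inter_left _
          (hf.mono _ (h.mem _ (h.inter _ h1 _ h2)) _ (h.mem _ h1) inter_subset_left)
      · apply principal_mono.2
        exact inter_subset_inter_left _
          (hf.mono _ (h.mem _ (h.inter _ h1 _ h2)) _ (h.mem _ h2) inter_subset_right)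
    · rintro ⟨X1, h1, h1'⟩
      rw [principal_neBot_iff]
      obtain ⟨x, hx, hx'⟩ := Set.not_subset.1 (hcon X1 h1 h1')
      exact ⟨x, hx, hx'⟩
  let p := Ultrafilter.of F
  have hp : (p : Filter ℕ) ≤ F := Ultrafilter.of_le F
  have h4 : ∀ x : ι, f x.1 ∩ Yᶜ ∈ p := fun x => hp (mem_iInf_of_mem x (mem_principal_self _))
  have h5 : p ∈ K B r f n X := fun X' hX' hr => mem_of_superset (h4 ⟨X', hX', hr⟩) inter_subset_left
  have h6 := hY p h5
  have h7 : Yᶜ ∈ p := mem_of_superset (h4 hne.some) inter_subset_right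
  exact Ultrafilter.compl_mem_iff_notMem.1 h7 h6

/-- There is a member of `B` all of whose approximations have a finite set of ultrafilters. -/
theorem Fusion.exists_finite (h : Fusion U B r) (hf : Red U V f) :
    ∃ X ∈ B, ∀ n, (K B r f n X).Finite := by
  classical
  by_contra hcon
  push Not at hcon
  have hcon' : ∀ X ∈ B, ∃ n, (K B r f n X).Infinite := hcon
  obtain ⟨N, e, heB, heN⟩ := h.reps B subset_rfl h.nonempty
  let FN : ℕ → Set ℕ := fun n => {j | j < N n ∧ (K B r f n (e n j)).Finite}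
  have hFN : ∀ n, (FN n).Finite := fun n => (finite_lt_nat (N n)).subset fun j hj => hj.1
  let Bad : ℕ → Set (Ultrafilter ℕ) := fun n => ⋃ j ∈ FN n, K B r f n (e n j)
  have hBad : ∀ n, (Bad n).Finite := fun n => (hFN n).biUnion fun j hj => hj.2
  have hinfU : Infinite (Ultrafilter ℕ) :=
    Infinite.of_injective (pure : ℕ → Ultrafilter ℕ) Ultrafilter.pure_injective
  let S : ℕ × ℕ × ℕ × Bool → Set (Ultrafilter ℕ) := fun x =>
    if (K B r f x.2.1 (e x.1 x.2.2.1)).Infinite then K B r f x.2.1 (e x.1 x.2.2.1) \ Bad x.1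
    else univ
  have hS : ∀ x, (S x).Infinite := by
    intro x
    simp only [S]
    split_ifs with hx
    · exact hx.sdiff (hBad _)
    · exact infinite_univ
  obtain ⟨φ, hφ, hφS⟩ := exists_inj S hS
  let T : ℕ → Set (ℕ × ℕ × Bool) := fun n =>
    {x | x.1 ≤ n ∧ x.2.1 < N n ∧ (K B r f x.1 (e n x.2.1)).Infinite}
  have hT : ∀ n, (T n).Finite := by
    intro n
    refine (((finite_le_nat n).prod ((finite_lt_nat (N n)).prod
      (finite_univ (α := Bool))))).subset ?_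
    rintro ⟨m, j, b⟩ ⟨h1, h2, -⟩
    exact ⟨h1, h2, mem_univ _⟩
  have hφ1 : ∀ n, ∀ x ∈ T n, φ (n, x) ∈ K B r f x.1 (e n x.2.1) ∧ φ (n, x) ∉ Bad n := by
    rintro n ⟨m, j, b⟩ ⟨h1, h2, h3⟩
    have := hφS (n, m, j, b)
    simp only [S] at this
    rw [if_pos h3] at this
    exact this
  have hG : ∀ n j, ∃ Z ∈ B, r n Z (e n j) ∧ (j ∈ FN n → ∀ x ∈ T n, f Z ∉ φ (n, x)) := by
    intro n j
    by_cases hj : j ∈ FN n
    · have h1 : ∀ x, ∃ X', x ∈ T n → (X' ∈ B ∧ r n X' (e n j)) ∧ f X' ∉ φ (n, x) := by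
        intro x
        by_cases hx : x ∈ T n
        · have h2 := (hφ1 n x hx).2
          have h3 : φ (n, x) ∉ K B r f n (e n j) := fun h4 => h2 (mem_biUnion hj h4)
          simp only [K, mem_ofPred_eq, not_forall] at h3
          obtain ⟨X', hX', hr, hX''⟩ := h3
          exact ⟨X', fun _ => ⟨⟨hX', hr⟩, hX''⟩⟩
        · exact ⟨∅, fun h => absurd h hx⟩
      choose G hG using h1
      obtain ⟨Z, hZ, hr, -, hZG⟩ := h.inter_class n (e n j) (heB n j) (T n) (hT n) G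
        (fun x hx => (hG x hx).1)
      refine ⟨Z, hZ, hr, fun _ x hx hmem => (hG x hx).2 ?_⟩
      exact mem_of_superset hmem (hf.mono _ (h.mem _ hZ) _ (h.mem _ (hG x hx).1.1) (hZG x hx))
    · exact ⟨e n j, heB n j, h.refl _ _, fun h' => absurd h' hj⟩
  choose G hGB hGr hGφ using hG
  obtain ⟨Z, hZ, L, hL, hZL⟩ := h.fusion (fun n => G n '' FN n) (fun n => (hFN n).image _) (by
    rintro n _ ⟨j, -, rfl⟩
    exact hGB n j)
  let HH : ℕ → Set ℕ := fun n => ⋃ j ∈ FN n, f (G n j)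
  have hHH : ∀ n, ∀ x ∈ T n, HH n ∉ φ (n, x) := by
    intro n x hx hmem
    obtain ⟨j, hj, h2⟩ := (Ultrafilter.finite_biUnion_mem_iff (hFN n)).1 hmem
    exact hGφ n j hj x hx h2
  let S' : ℕ → Set ℕ := fun n => (⋂ n' ∈ {n' | n' ∈ L ∧ n' < n}, HH n') \ HH n
  have hsep : ∀ n, ∃ A : Set ℕ, (∀ x ∈ T n, x.2.2 = true → A ∈ φ (n, x)) ∧
      ∀ x ∈ T n, x.2.2 = false → A ∉ φ (n, x) := by
    intro n
    obtain ⟨A, hA1, hA2⟩ := exists_sep ((fun x => φ (n, x)) '' {x | x ∈ T n ∧ x.2.2 = true})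
      ((fun x => φ (n, x)) '' {x | x ∈ T n ∧ x.2.2 = false})
      (((hT n).subset fun x hx => hx.1).image _) (((hT n).subset fun x hx => hx.1).image _) (by
        rintro _ ⟨x, ⟨hx, hxt⟩, rfl⟩ _ ⟨y, ⟨hy, hyt⟩, rfl⟩ hxy
        have h1 := hφ hxy
        simp only [Prod.mk.injEq, true_and] at h1
        rw [h1, hyt] at hxt
        exact absurd hxt (by simp))
    exact ⟨A, fun x hx hxt => hA1 _ ⟨x, ⟨hx, hxt⟩, rfl⟩, fun x hx hxt => hA2 _ ⟨x, ⟨hx, hxt⟩, rfl⟩⟩
  choose A hA1 hA2 using hsep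
  let AA : Set ℕ := ⋃ n ∈ L, A n ∩ S' n
  have key : ∀ X ∈ B, X ⊆ Z → ∃ n ∈ L, ∀ b : Bool, ∃ x ∈ T n, x.2.2 = b ∧ f X ∈ φ (n, x) ∧
      S' n ∈ φ (n, x) := by
    intro X hX hXZ
    have hm := hcon' X hX
    let m := Nat.find hm
    have hm1 : (K B r f m X).Infinite := Nat.find_spec hm
    have hex : ∃ n, n ∈ L ∧ m ≤ n := by
      obtain ⟨n, hn, hn'⟩ := hL.exists_gt m
      exact ⟨n, hn, hn'.le⟩
    let n := Nat.find hex
    obtain ⟨hnL, hmn⟩ : n ∈ L ∧ m ≤ n := Nat.find_spec hex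
    obtain ⟨j, hj, hr⟩ := heN n X hX
    have hK : K B r f m (e n j) = K B r f m X := (h.K_congr (h.down' hmn hr)).symm
    refine ⟨n, hnL, fun b => ⟨(m, j, b), ⟨hmn, hj, by rw [hK]; exact hm1⟩, rfl, ?_, ?_⟩⟩
    · have h1 := (hφ1 n (m, j, b) ⟨hmn, hj, by rw [hK]; exact hm1⟩).1
      simp only at h1
      rw [hK] at h1
      exact h.K_self hX h1
    · have hx : (m, j, b) ∈ T n := ⟨hmn, hj, by rw [hK]; exact hm1⟩
      have h1 := (hφ1 n (m, j, b) hx).1
      simp only at h1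
      rw [hK] at h1
      have hfX := h.K_self hX h1
      have h2 : (⋂ n' ∈ {n' | n' ∈ L ∧ n' < n}, HH n') ∈ (φ (n, m, j, b) : Filter ℕ) := by
        refine (biInter_mem ((finite_lt_nat n).subset fun n' hn' => hn'.2)).2 ?_
        rintro n' ⟨hn'L, hn'⟩
        have h3 : n' < m := by
          by_contra hcon2
          exact Nat.find_min hex hn' ⟨hn'L, not_lt.1 hcon2⟩
        have h4 : (K B r f n' X).Finite := by
          by_contra hcon2
          exact Nat.find_min hm h3 hcon2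
        obtain ⟨j', hj', hr'⟩ := heN n' X hX
        have h5 : j' ∈ FN n' := ⟨hj', by rw [← h.K_congr hr']; exact h4⟩
        have h6 : X ⊆ G n' j' := hZL X hX hXZ n' hn'L _ ⟨j', h5, rfl⟩
          (h.trans _ _ _ _ (hGr n' j') (h.symm _ _ _ hr'))
        refine mem_of_superset hfX ?_
        exact (hf.mono _ (h.mem _ hX) _ (h.mem _ (hGB n' j')) h6).trans
          (subset_biUnion_of_mem (u := fun j => f (G n' j)) h5)
      have h3 : (HH n)ᶜ ∈ φ (n, m, j, b) := Ultrafilter.compl_mem_iff_notMem.2 (hHH n _ hx)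
      exact inter_mem h2 h3
  have hdisj : ∀ n ∈ L, ∀ n' ∈ L, ∀ x, x ∈ S' n → x ∈ S' n' → n = n' := by
    have h1 : ∀ n ∈ L, ∀ n' ∈ L, ∀ x, x ∈ S' n → x ∈ S' n' → ¬ n < n' := by
      intro n hn n' hn' x hx hx' hlt
      have h2 : x ∈ HH n := mem_iInter₂.1 hx'.1 n ⟨hn, hlt⟩
      exact hx.2 h2
    intro n hn n' hn' x hx hx'
    rcases lt_trichotomy n n' with h2 | h2 | h2
    · exact absurd h2 (h1 n hn n' hn' x hx hx')
    · exact h2
    · exact absurd h2 (h1 n' hn' n hn x hx' hx)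
  have hno : ∀ X ∈ B, X ⊆ Z → ¬ f X ⊆ AA ∧ ¬ f X ⊆ AAᶜ := by
    intro X hX hXZ
    obtain ⟨n, hn, hn'⟩ := key X hX hXZ
    constructor
    · intro hsub
      obtain ⟨x, hx, hxb, hfx, hSx⟩ := hn' false
      have h1 : (A n)ᶜ ∈ φ (n, x) := Ultrafilter.compl_mem_iff_notMem.2 (hA2 n x hx hxb)
      obtain ⟨d, ⟨hd1, hd2⟩, hd3⟩ := Ultrafilter.nonempty_of_mem (inter_mem (inter_mem hfx hSx) h1)
      obtain ⟨n', hn'L, hd4, hd5⟩ := mem_iUnion₂.1 (hsub hd1)
      have h2 : n = n' := hdisj n hn n' hn'L d hd2 hd5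
      subst h2
      exact hd3 hd4
    · intro hsub
      obtain ⟨x, hx, hxb, hfx, hSx⟩ := hn' true
      obtain ⟨d, ⟨hd1, hd2⟩, hd3⟩ := Ultrafilter.nonempty_of_mem
        (inter_mem (inter_mem hfx hSx) (hA1 n x hx hxb))
      exact hsub hd1 (mem_biUnion hn ⟨hd3, hd2⟩)
  have hfin : ∀ Q : Set ℕ, Q ∈ V → ∃ X ∈ B, X ⊆ Z ∧ f X ⊆ Q := by
    intro Q hQ
    obtain ⟨A', hA', hA''⟩ := hf.cof Q hQ
    obtain ⟨X0, hX0, hX0'⟩ := h.base A' hA'
    refine ⟨X0 ∩ Z, h.inter _ hX0 _ hZ, inter_subset_right, ?_⟩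
    exact (hf.mono _ (h.mem _ (h.inter _ hX0 _ hZ)) _ hA' (inter_subset_left.trans hX0')).trans hA''
  by_cases hAA : AA ∈ V
  · obtain ⟨X, hX, hXZ, hfX⟩ := hfin AA hAA
    exact (hno X hX hXZ).1 hfX
  · obtain ⟨X, hX, hXZ, hfX⟩ := hfin AAᶜ (Ultrafilter.compl_mem_iff_notMem.2 hAA)
    exact (hno X hX hXZ).2 hfX

end Pool.Agent.TH780.BG
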