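import Mathlib

/-!
# Fusion structures on ultrafilters

An ultrafilter with a fusion structure has a base `B`, closed under intersections, together with
finite approximations (`r n X Y` says that `X` and `Y` have the same approximation of level `n`),
for which a fusion lemma holds.  P-points have such a structure, and the class of the ultrafilters
which have one is closed under Fubini sums.
-/

set_option autoImplicit false

namespace Pool.Agent.TH780.BG

open Set Filter

/-- No finite set is in `V`. -/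
def NP (V : Ultrafilter ℕ) : Prop := ∀ s : Set ℕ, s.Finite → s ∉ V

structure Fusion {α : Type} (U : Ultrafilter α) (B : Set (Set α))
    (r : ℕ → Set α → Set α → Prop) : Prop where
  mem : ∀ X ∈ B, X ∈ U
  base : ∀ A ∈ U, ∃ X ∈ B, X ⊆ A
  inter : ∀ X ∈ B, ∀ Y ∈ B, X ∩ Y ∈ B
  refl : ∀ n X, r n X X
  symm : ∀ n X Y, r n X Y → r n Y X
  trans : ∀ n X Y Z, r n X Y → r n Y Z → r n X Z
  down : ∀ n X Y, r (n + 1) X Y → r n X Y
  fin : ∀ n, ∃ c : Set α → ℕ, (∃ N, ∀ X ∈ B, c X < N) ∧ ∀ X ∈ B, ∀ Y ∈ B, c X = c Y → r n X Y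
  mon : ∀ n, ∀ X ∈ B, ∀ X' ∈ B, ∀ X'' ∈ B, X' ⊆ X → r n X'' X → r n (X' ∩ X'') X'
  fus : ∀ H : ℕ → Set (Set α), (∀ n, (H n).Finite) → (∀ n, H n ⊆ B) →
    ∃ g : ℕ → ℕ, ∀ s : ℕ → ℕ, StrictMono s → (∀ i, g (s i) ≤ s (i + 1)) →
      ∃ W : ℕ → Ultrafilter ℕ, (∀ j, NP (W j)) ∧ ∀ I : Set ℕ, (∀ j, I ∉ W j) →
        ∃ Z ∈ B, ∀ X ∈ B, X ⊆ Z → ∀ i ∈ I, ∀ Y ∈ H (s i), r (s i) Y X → X ⊆ Y

/-- almost disjoint sets coded by the branches of the binary tree -/
def branch (f : ℕ → Bool) : Set ℕ :=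
  Set.range (fun n => Encodable.encode ((List.range n).map f))

theorem branch_inj (f f' : ℕ → Bool) (n n' : ℕ)
    (h : Encodable.encode ((List.range n).map f) = Encodable.encode ((List.range n').map f')) :
    n = n' ∧ ∀ i < n, f i = f' i := by
  have h1 : (List.range n).map f = (List.range n').map f' := Encodable.encode_injective h
  have h2 : n = n' := by
    have := congrArg List.length h1
    simpa using this
  subst h2
  refine ⟨rfl, fun i hi => ?_⟩
  have h3 : ((List.range n).map f)[i]? = ((List.range n).map f')[i]? := by rw [h1]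
  simpa [hi] using h3

theorem branch_infinite (f : ℕ → Bool) : (branch f).Infinite := by
  apply Set.infinite_range_of_injective
  intro n n' h
  exact (branch_inj f f n n' h).1

theorem branch_inter {f f' : ℕ → Bool} (h : f ≠ f') : (branch f ∩ branch f').Finite := by
  obtain ⟨i, hi⟩ := Function.ne_iff.mp h
  refine ((Set.finite_Iic i).image (fun n => Encodable.encode ((List.range n).map f))).subset ?_
  rintro x ⟨⟨n, hn⟩, ⟨n', hn'⟩⟩
  refine ⟨n, ?_, hn⟩
  have := branch_inj f f' n n' (hn.trans hn'.symm)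
  by_contra hcon
  simp only [Set.mem_Iic, not_le] at hcon
  exact hi (this.2 i hcon)

/-- For countably many nonprincipal ultrafilters there is an infinite set outside of all of them. -/
theorem exists_avoid (W : ℕ → Ultrafilter ℕ) (hW : ∀ j, NP (W j)) :
    ∃ I : Set ℕ, I.Infinite ∧ ∀ j, I ∉ W j := by
  by_contra hcon
  push Not at hcon
  have h1 : ∀ f : ℕ → Bool, ∃ j, branch f ∈ W j := fun f => hcon _ (branch_infinite f)
  choose j hj using h1
  have hinj : Function.Injective j := by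
    intro f f' hff
    by_contra hne
    have h2 := hj f'
    rw [← hff] at h2
    exact hW (j f) _ (branch_inter hne) (inter_mem (hj f) h2)
  have h2 : Countable (ℕ → Bool) := hinj.countable
  have h3 : Cardinal.mk (ℕ → Bool) ≤ Cardinal.aleph0 := Cardinal.mk_le_aleph0_iff.2 h2
  simp only [Cardinal.mk_pi, Cardinal.mk_fintype, Fintype.card_bool, Cardinal.prod_const] at h3
  exact absurd h3 (by simpa using Cardinal.aleph0_lt_continuum)

/-- The fusion lemma. -/
theorem Fusion.fusion {α : Type} {U : Ultrafilter α} {B : Set (Set α)}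
    {r : ℕ → Set α → Set α → Prop} (h : Fusion U B r) (H : ℕ → Set (Set α))
    (hH : ∀ n, (H n).Finite) (hB : ∀ n, H n ⊆ B) :
    ∃ Z ∈ B, ∃ L : Set ℕ, L.Infinite ∧
      ∀ X ∈ B, X ⊆ Z → ∀ n ∈ L, ∀ Y ∈ H n, r n Y X → X ⊆ Y := by
  obtain ⟨g, hg⟩ := h.fus H hH hB
  let s : ℕ → ℕ := fun i => Nat.rec 0 (fun _ k => max (g k) (k + 1)) i
  have hs1 : ∀ i, s (i + 1) = max (g (s i)) (s i + 1) := fun i => rfl
  have hs : StrictMono s := by
    apply strictMono_nat_of_lt_succ
    intro i
    rw [hs1]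
    exact lt_of_lt_of_le (Nat.lt_succ_self _) (le_max_right _ _)
  obtain ⟨W, hW, hI⟩ := hg s hs (fun i => by rw [hs1]; exact le_max_left _ _)
  obtain ⟨I, hI1, hI2⟩ := exists_avoid W hW
  obtain ⟨Z, hZ, hZ2⟩ := hI I hI2
  refine ⟨Z, hZ, s '' I, hI1.image hs.injective.injOn, ?_⟩
  rintro X hX hXZ _ ⟨i, hi, rfl⟩ Y hY hr
  exact hZ2 X hX hXZ i hi Y hY hr

theorem Fusion.down' {α : Type} {U : Ultrafilter α} {B : Set (Set α)}
    {r : ℕ → Set α → Set α → Prop} (h : Fusion U B r) {m n : ℕ} (hmn : m ≤ n) {X Y : Set α}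
    (hr : r n X Y) : r m X Y := by
  induction n, hmn using Nat.le_induction with
  | base => exact hr
  | succ n _ ih => exact ih (h.down n X Y hr)

theorem Fusion.nonempty {α : Type} {U : Ultrafilter α} {B : Set (Set α)}
    {r : ℕ → Set α → Set α → Prop} (h : Fusion U B r) : B.Nonempty := by
  obtain ⟨X, hX, -⟩ := h.base Set.univ univ_mem
  exact ⟨X, hX⟩

/-- Representatives for the approximations. -/
theorem Fusion.reps {α : Type} {U : Ultrafilter α} {B : Set (Set α)}
    {r : ℕ → Set α → Set α → Prop} (h : Fusion U B r) (C : Set (Set α)) (hC : C ⊆ B)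
    (hne : C.Nonempty) :
    ∃ N : ℕ → ℕ, ∃ e : ℕ → ℕ → Set α, (∀ n j, e n j ∈ C) ∧
      ∀ n, ∀ X ∈ C, ∃ j < N n, r n X (e n j) := by
  classical
  choose c hc hcr using h.fin
  choose N hN using hc
  obtain ⟨X0, hX0⟩ := hne
  refine ⟨N, fun n j => if hj : ∃ X ∈ C, c n X = j then hj.choose else X0, ?_, ?_⟩
  · intro n j
    dsimp only
    split_ifs with hj
    · exact hj.choose_spec.1
    · exact hX0
  · intro n X hX
    refine ⟨c n X, hN n X (hC hX), ?_⟩
    have hj : ∃ X' ∈ C, c n X' = c n X := ⟨X, hX, rfl⟩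
    beta_reduce
    rw [dif_pos hj]
    exact hcr n X (hC hX) _ (hC hj.choose_spec.1) hj.choose_spec.2.symm

/-- Finite intersections of members of `B` in the same class. -/
theorem Fusion.inter_class {α : Type} {U : Ultrafilter α} {B : Set (Set α)}
    {r : ℕ → Set α → Set α → Prop} (h : Fusion U B r) (n : ℕ) (X : Set α) (hX : X ∈ B)
    {ι : Type} (t : Set ι) (ht : t.Finite) (G : ι → Set α)
    (hG : ∀ i ∈ t, G i ∈ B ∧ r n (G i) X) :
    ∃ Z ∈ B, r n Z X ∧ Z ⊆ X ∧ ∀ i ∈ t, Z ⊆ G i := by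
  induction t, ht using Set.Finite.induction_on with
  | empty => exact ⟨X, hX, h.refl n X, subset_rfl, by simp⟩
  | @insert a t ha ht ih =>
    obtain ⟨Z, hZ, hr, hZX, hZt⟩ := ih (fun i hi => hG i (mem_insert_of_mem _ hi))
    obtain ⟨hGa, hra⟩ := hG a (mem_insert _ _)
    refine ⟨Z ∩ G a, h.inter _ hZ _ hGa, ?_, inter_subset_left.trans hZX, ?_⟩
    · exact h.trans n _ _ _ (h.mon n X hX Z hZ (G a) hGa hZX hra) hr
    · intro i hi
      rcases mem_insert_iff.1 hi with rfl | hi
      · exact inter_subset_right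
      · exact inter_subset_left.trans (hZt i hi)

end Pool.Agent.TH780.BG
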