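import Pool.Agent.TH780.Basic

/-!
# P-points have a fusion structure, and so do Fubini sums
-/

set_option autoImplicit false

namespace Pool.Agent.TH780.BG

open Set Filter

/-- P-points have a fusion structure. -/
theorem fusion_ppoint (U : Ultrafilter ℕ) (hNP : NP U)
    (hP : ∀ A : ℕ → Set ℕ, (∀ n, A n ∈ U) → ∃ B ∈ U, ∀ n, (B \ A n).Finite) :
    Fusion U {X | X ∈ U} (fun n X Y => X ∩ Iio n = Y ∩ Iio n) where
  mem := fun X hX => hX
  base := fun A hA => ⟨A, hA, subset_rfl⟩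
  inter := fun X hX Y hY => inter_mem hX hY
  refl := fun n X => rfl
  symm := fun n X Y h => h.symm
  trans := fun n X Y Z h h' => h.trans h'
  down := by
    intro n X Y h
    ext x
    constructor
    · rintro ⟨hx, hxn⟩
      have : x ∈ X ∩ Iio (n + 1) := ⟨hx, lt_trans hxn (Nat.lt_succ_self n)⟩
      rw [h] at this
      exact ⟨this.1, hxn⟩
    · rintro ⟨hx, hxn⟩
      have : x ∈ Y ∩ Iio (n + 1) := ⟨hx, lt_trans hxn (Nat.lt_succ_self n)⟩
      rw [← h] at this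
      exact ⟨this.1, hxn⟩
  fin := by
    classical
    intro n
    refine ⟨fun X => Encodable.encode ((Finset.range n).filter (· ∈ X)), ⟨?_, ?_⟩⟩
    · refine ⟨(Finset.powerset (Finset.range n)).sup Encodable.encode + 1, fun X _ => ?_⟩
      apply Nat.lt_succ_of_le
      exact Finset.le_sup (f := Encodable.encode)
        (Finset.mem_powerset.2 (Finset.filter_subset _ _))
    · intro X _ Y _ hXY
      have h1 := Encodable.encode_injective hXY
      ext x
      have h2 := Finset.ext_iff.1 h1 x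
      simp only [Finset.mem_filter, Finset.mem_range] at h2
      simp only [mem_inter_iff, mem_Iio]
      tauto
  mon := by
    intro n X _ X' _ X'' _ hsub hr
    ext x
    constructor
    · rintro ⟨⟨h1, -⟩, h2⟩
      exact ⟨h1, h2⟩
    · rintro ⟨h1, h2⟩
      have h3 : x ∈ X ∩ Iio n := ⟨hsub h1, h2⟩
      rw [← hr] at h3
      exact ⟨⟨h1, h3.1⟩, h2⟩
  fus := by
    intro H hH hB
    have hA : ∀ n, (⋂ Y ∈ H n, Y) ∈ U := fun n => (biInter_mem (hH n)).2 fun Y hY => hB n hY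
    obtain ⟨Z0, hZ0, hfin⟩ := hP (fun n => ⋂ Y ∈ H n, Y) hA
    have hg : ∀ n, ∃ g : ℕ, ∀ x ∈ Z0, g ≤ x → x ∈ ⋂ Y ∈ H n, Y := by
      intro n
      obtain ⟨b, hb⟩ := (hfin n).bddAbove
      refine ⟨b + 1, fun x hx hgx => ?_⟩
      by_contra hcon
      have := hb ⟨hx, hcon⟩
      omega
    choose g hg using hg
    refine ⟨g, fun s hs hgs => ?_⟩
    have hex : ∀ x, ∃ i, x < s (i + 1) := fun x =>
      ⟨x, lt_of_lt_of_le (Nat.lt_succ_self x) (hs.id_le (x + 1))⟩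
    let q : ℕ → ℕ := fun x => Nat.find (hex x)
    have hq : ∀ i x, s i ≤ x → x < s (i + 1) → q x = i := by
      intro i x h1 h2
      have h3 : q x ≤ i := Nat.find_min' (hex x) h2
      by_contra hne
      have h4 : q x + 1 ≤ i := by omega
      have h5 : x < s (q x + 1) := Nat.find_spec (hex x)
      have h6 := hs.monotone h4
      omega
    refine ⟨fun _ => U.map q, fun _ => ?_, fun I hI => ?_⟩
    · intro t ht hmem
      refine hNP _ ?_ hmem
      obtain ⟨b, hb⟩ := ht.bddAbove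
      refine (finite_lt_nat (s (b + 1))).subset fun x hx => ?_
      have h1 : q x ≤ b := hb hx
      have h2 : x < s (q x + 1) := Nat.find_spec (hex x)
      exact lt_of_lt_of_le h2 (hs.monotone (by omega))
    · have h1 : (q ⁻¹' I)ᶜ ∈ U := Ultrafilter.compl_mem_iff_notMem.2 (hI 0)
      refine ⟨Z0 ∩ (q ⁻¹' I)ᶜ, inter_mem hZ0 h1, ?_⟩
      intro X hX hXZ i hi Y hY hr x hx
      by_cases hxs : x < s i
      · have h2 : x ∈ X ∩ Iio (s i) := ⟨hx, hxs⟩
        rw [← hr] at h2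
        exact h2.1
      · have h2 : s (i + 1) ≤ x := by
          by_contra hcon
          have h3 := hq i x (not_lt.1 hxs) (not_le.1 hcon)
          apply (hXZ hx).2
          show q x ∈ I
          rw [h3]
          exact hi
        exact mem_iInter₂.1 (hg (s i) x (hXZ hx).1 ((hgs i).trans h2)) Y hY

/-- Fusion structures can be transported along bijections. -/
theorem Fusion.map_equiv {α β : Type} {U : Ultrafilter α} {B : Set (Set α)}
    {r : ℕ → Set α → Set α → Prop} (h : Fusion U B r) (e : α ≃ β) :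
    Fusion (U.map e) {Y | e ⁻¹' Y ∈ B} (fun n X Y => r n (e ⁻¹' X) (e ⁻¹' Y)) where
  mem := fun X hX => Ultrafilter.mem_map.2 (h.mem _ hX)
  base := by
    intro A hA
    obtain ⟨X, hX, hXA⟩ := h.base _ (Ultrafilter.mem_map.1 hA)
    refine ⟨e '' X, ?_, image_subset_iff.2 hXA⟩
    show e ⁻¹' (e '' X) ∈ B
    rw [e.preimage_image]
    exact hX
  inter := fun X hX Y hY => h.inter _ hX _ hY
  refl := fun n X => h.refl n _
  symm := fun n X Y hr => h.symm n _ _ hr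
  trans := fun n X Y Z hr hr' => h.trans n _ _ _ hr hr'
  down := fun n X Y hr => h.down n _ _ hr
  fin := by
    intro n
    obtain ⟨c, ⟨N, hN⟩, hc⟩ := h.fin n
    exact ⟨fun X => c (e ⁻¹' X), ⟨N, fun X hX => hN _ hX⟩, fun X hX Y hY hXY => hc _ hX _ hY hXY⟩
  mon := fun n X hX X' hX' X'' hX'' hsub hr =>
    h.mon n _ hX _ hX' _ hX'' (preimage_mono hsub) hr
  fus := by
    intro H hH hB
    obtain ⟨g, hg⟩ := h.fus (fun n => (fun Y => e ⁻¹' Y) '' H n) (fun n => (hH n).image _) (by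
      rintro n _ ⟨Y, hY, rfl⟩
      exact hB n hY)
    refine ⟨g, fun s hs hgs => ?_⟩
    obtain ⟨W, hW, hI⟩ := hg s hs hgs
    refine ⟨W, hW, fun I hI' => ?_⟩
    obtain ⟨Z, hZ, hZ'⟩ := hI I hI'
    refine ⟨e '' Z, ?_, ?_⟩
    · show e ⁻¹' (e '' Z) ∈ B
      rw [e.preimage_image]
      exact hZ
    · intro X hX hXZ i hi Y hY hr
      have h1 : e ⁻¹' X ⊆ Z := by
        rw [← e.preimage_image Z]
        exact preimage_mono hXZ
      have h2 := hZ' _ hX h1 i hi _ ⟨Y, hY, rfl⟩ hr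
      exact (e.surjective.preimage_subset_preimage_iff).1 h2

/-- The limit of the ultrafilters `V n` along `U`, an ultrafilter on `ℕ × ℕ`: a set `A` belongs to
it if and only if, for `U`-almost all `n`, for `V n`-almost all `m`, `(n, m) ∈ A`. -/
def lim (U : Ultrafilter ℕ) (V : ℕ → Ultrafilter ℕ) : Ultrafilter (ℕ × ℕ) :=
  U.bind fun n => (V n).map (Prod.mk n)

theorem mem_lim {U : Ultrafilter ℕ} {V : ℕ → Ultrafilter ℕ} {A : Set (ℕ × ℕ)} :
    A ∈ lim U V ↔ {n | {m | (n, m) ∈ A} ∈ V n} ∈ U := Iff.rfl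

/-- The column with index `m`. -/
def sec (A : Set (ℕ × ℕ)) (m : ℕ) : Set ℕ := {x | (m, x) ∈ A}

/-- The indices of the nonempty columns. -/
def pr (A : Set (ℕ × ℕ)) : Set ℕ := {m | (sec A m).Nonempty}

theorem Fusion.inter_finite {α : Type} {U : Ultrafilter α} {B : Set (Set α)}
    {r : ℕ → Set α → Set α → Prop} (h : Fusion U B r) (X : Set α) (hX : X ∈ B)
    {ι : Type} (t : Set ι) (ht : t.Finite) (G : ι → Set α) (hG : ∀ i ∈ t, G i ∈ B) :
    ∃ Z ∈ B, Z ⊆ X ∧ ∀ i ∈ t, Z ⊆ G i := by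
  induction t, ht using Set.Finite.induction_on with
  | empty => exact ⟨X, hX, subset_rfl, by simp⟩
  | @insert a t ha ht ih =>
    obtain ⟨Z, hZ, hZX, hZt⟩ := ih (fun i hi => hG i (mem_insert_of_mem _ hi))
    refine ⟨Z ∩ G a, h.inter _ hZ _ (hG a (mem_insert _ _)), inter_subset_left.trans hZX, ?_⟩
    intro i hi
    rcases mem_insert_iff.1 hi with rfl | hi
    · exact inter_subset_right
    · exact inter_subset_left.trans (hZt i hi)

/-- Fubini sums of ultrafilters with a fusion structure have a fusion structure. -/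
theorem fusion_lim {U : Ultrafilter ℕ} {V : ℕ → Ultrafilter ℕ} {B : Set (Set ℕ)}
    {r : ℕ → Set ℕ → Set ℕ → Prop} {C : ℕ → Set (Set ℕ)} {ρ : ℕ → ℕ → Set ℕ → Set ℕ → Prop}
    (h : Fusion U B r) (hV : ∀ m, Fusion (V m) (C m) (ρ m)) :
    Fusion (lim U V) {A | pr A ∈ B ∧ ∀ m ∈ pr A, sec A m ∈ C m}
      (fun n A A' => r n (pr A) (pr A') ∧ ∀ m < n, ((sec A m).Nonempty ↔ (sec A' m).Nonempty) ∧
        ((sec A m).Nonempty → ρ m n (sec A m) (sec A' m))) := by
  classical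
  have hne : ∀ m, ∀ X ∈ C m, X.Nonempty := fun m X hX =>
    Ultrafilter.nonempty_of_mem ((hV m).mem X hX)
  have hmk : ∀ (M : Set ℕ) (Z : ℕ → Set ℕ), (∀ m, Z m ∈ C m) →
      pr {z : ℕ × ℕ | z.1 ∈ M ∧ z.2 ∈ Z z.1} = M ∧
      ∀ m ∈ M, sec {z : ℕ × ℕ | z.1 ∈ M ∧ z.2 ∈ Z z.1} m = Z m := by
    intro M Z hZ
    constructor
    · ext m
      constructor
      · rintro ⟨x, hx⟩
        exact hx.1
      · intro hm
        obtain ⟨x, hx⟩ := hne m _ (hZ m)
        exact ⟨x, hm, hx⟩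
    · intro m hm
      ext x
      exact ⟨fun hx => hx.2, fun hx => ⟨hm, hx⟩⟩
  refine ⟨?_, ?_, ?_, ?_, ?_, ?_, ?_, ?_, ?_, ?_⟩
  · -- mem
    rintro A ⟨hA, hA'⟩
    rw [mem_lim]
    have h1 : pr A ∈ U := h.mem _ hA
    exact mem_of_superset h1 fun m hm => (hV m).mem _ (hA' m hm)
  · -- base
    intro A hA
    obtain ⟨M, hM, hMA⟩ := h.base _ (mem_lim.1 hA)
    have h1 : ∀ m, ∃ X ∈ C m, m ∈ M → X ⊆ sec A m := by
      intro m
      by_cases hm : m ∈ M
      · obtain ⟨X, hX, hXA⟩ := (hV m).base _ (hMA hm)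
        exact ⟨X, hX, fun _ => hXA⟩
      · obtain ⟨X, hX⟩ := (hV m).nonempty
        exact ⟨X, hX, fun h => absurd h hm⟩
    choose Z hZ hZA using h1
    obtain ⟨h2, h3⟩ := hmk M Z hZ
    refine ⟨{z : ℕ × ℕ | z.1 ∈ M ∧ z.2 ∈ Z z.1}, ⟨?_, ?_⟩, ?_⟩
    · rw [h2]
      exact hM
    · intro m hm
      rw [h2] at hm
      rw [h3 m hm]
      exact hZ m
    · rintro ⟨m, x⟩ ⟨hm, hx⟩
      exact hZA m hm hx
  · -- inter
    rintro A ⟨hA, hA'⟩ A1 ⟨hA1, hA1'⟩
    have h2 : pr (A ∩ A1) = pr A ∩ pr A1 := by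
      ext m
      constructor
      · rintro ⟨x, hx⟩
        exact ⟨⟨x, hx.1⟩, ⟨x, hx.2⟩⟩
      · rintro ⟨hm, hm1⟩
        exact hne m _ ((hV m).inter _ (hA' m hm) _ (hA1' m hm1))
    refine ⟨?_, fun m hm => ?_⟩
    · rw [h2]
      exact h.inter _ hA _ hA1
    · rw [h2] at hm
      exact (hV m).inter _ (hA' m hm.1) _ (hA1' m hm.2)
  · -- refl
    exact fun n X => ⟨h.refl n _, fun m _ => ⟨Iff.rfl, fun _ => (hV m).refl n _⟩⟩
  · -- symm
    rintro n X Y ⟨h1, h2⟩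
    exact ⟨h.symm _ _ _ h1, fun m hm => ⟨(h2 m hm).1.symm, fun hY =>
      (hV m).symm _ _ _ ((h2 m hm).2 ((h2 m hm).1.2 hY))⟩⟩
  · -- trans
    rintro n X Y Z ⟨h1, h2⟩ ⟨h3, h4⟩
    exact ⟨h.trans _ _ _ _ h1 h3, fun m hm => ⟨(h2 m hm).1.trans (h4 m hm).1, fun hX =>
      (hV m).trans _ _ _ _ ((h2 m hm).2 hX) ((h4 m hm).2 ((h2 m hm).1.1 hX))⟩⟩
  · -- down
    rintro n X Y ⟨h1, h2⟩
    exact ⟨h.down _ _ _ h1, fun m hm => ⟨(h2 m (by omega)).1, fun hX =>
      (hV m).down _ _ _ ((h2 m (by omega)).2 hX)⟩⟩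
  · -- fin
    intro n
    obtain ⟨c, ⟨N, hN⟩, hc⟩ := h.fin n
    choose d hd hd' using fun m => (hV m).fin n
    choose M hM using hd
    let F : Set (ℕ × ℕ) → ℕ × (Fin n → ℕ) := fun A =>
      (c (pr A), fun i => if (sec A i).Nonempty then d i (sec A i) + 1 else 0)
    refine ⟨fun A => Encodable.encode (F A), ⟨?_, ?_⟩⟩
    · have hfin : ({v : ℕ × (Fin n → ℕ) | v.1 < N ∧ ∀ i, v.2 i < M i + 1}).Finite := by
        refine ((finite_lt_nat N).prod (Set.Finite.pi' fun i : Fin n =>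
          finite_lt_nat (M i + 1))).subset ?_
        rintro ⟨a, v⟩ ⟨h1, h2⟩
        exact ⟨h1, h2⟩
      obtain ⟨b, hb⟩ := (hfin.image Encodable.encode).bddAbove
      refine ⟨b + 1, fun A hA => Nat.lt_succ_of_le (hb ⟨F A, ⟨hN _ hA.1, fun i => ?_⟩, rfl⟩)⟩
      simp only [F]
      split_ifs with hi
      · have := hM i _ (hA.2 i hi)
        omega
      · omega
    · intro A hA A1 hA1 hAA
      have h1 : F A = F A1 := Encodable.encode_injective hAA
      simp only [F, Prod.mk.injEq] at h1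
      obtain ⟨h1, h2⟩ := h1
      refine ⟨hc _ hA.1 _ hA1.1 h1, fun m hm => ?_⟩
      have h3 := congrFun h2 ⟨m, hm⟩
      simp only at h3
      by_cases h4 : (sec A m).Nonempty
      · by_cases h5 : (sec A1 m).Nonempty
        · rw [if_pos h4, if_pos h5] at h3
          exact ⟨⟨fun _ => h5, fun _ => h4⟩, fun _ => hd' m _ (hA.2 m h4) _ (hA1.2 m h5) (by omega)⟩
        · rw [if_pos h4, if_neg h5] at h3
          omega
      · by_cases h5 : (sec A1 m).Nonempty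
        · rw [if_neg h4, if_pos h5] at h3
          omega
        · exact ⟨⟨fun h => absurd h h4, fun h => absurd h h5⟩, fun h => absurd h h4⟩
  · -- mon
    rintro n A ⟨hA, hA'⟩ A1 ⟨hA1, hA1'⟩ A2 ⟨hA2, hA2'⟩ hsub ⟨hr1, hr2⟩
    have hsub' : pr A1 ⊆ pr A := by
      rintro m ⟨x, hx⟩
      exact ⟨x, hsub hx⟩
    have h2 : pr (A1 ∩ A2) = pr A1 ∩ pr A2 := by
      ext m
      constructor
      · rintro ⟨x, hx⟩
        exact ⟨⟨x, hx.1⟩, ⟨x, hx.2⟩⟩
      · rintro ⟨hm, hm1⟩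
        exact hne m _ ((hV m).inter _ (hA1' m hm) _ (hA2' m hm1))
    refine ⟨?_, fun m hm => ⟨⟨?_, ?_⟩, ?_⟩⟩
    · rw [h2]
      exact h.mon n _ hA _ hA1 _ hA2 hsub' hr1
    · rintro ⟨x, hx⟩
      exact ⟨x, hx.1⟩
    · intro h3
      have h4 : m ∈ pr A2 := (hr2 m hm).1.2 (hsub' h3)
      have h5 : m ∈ pr (A1 ∩ A2) := by
        rw [h2]
        exact ⟨h3, h4⟩
      exact h5
    · rintro ⟨x, hx⟩
      have h3 : m ∈ pr A1 := ⟨x, hx.1⟩
      have h4 : m ∈ pr A2 := ⟨x, hx.2⟩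
      exact (hV m).mon n _ (hA' m (hsub' h3)) _ (hA1' m h3) _ (hA2' m h4)
        (fun y hy => hsub hy) ((hr2 m hm).2 h4)
  · -- fus
    intro H hH hB
    obtain ⟨gW, hgW⟩ := h.fus (fun n => pr '' H n) (fun n => (hH n).image _) (by
      rintro n _ ⟨A, hA, rfl⟩
      exact (hB n hA).1)
    have hcol : ∀ m, ∃ g : ℕ → ℕ, ∀ s : ℕ → ℕ, StrictMono s → (∀ i, g (s i) ≤ s (i + 1)) →
        ∃ W : ℕ → Ultrafilter ℕ, (∀ j, NP (W j)) ∧ ∀ I : Set ℕ, (∀ j, I ∉ W j) →
        ∃ Z ∈ C m, ∀ X ∈ C m, X ⊆ Z → ∀ i ∈ I, ∀ Y ∈ (fun A => sec A m) '' {A | A ∈ H (s i) ∧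
          m ∈ pr A}, ρ m (s i) Y X → X ⊆ Y := by
      intro m
      exact (hV m).fus (fun n => (fun A => sec A m) '' {A | A ∈ H n ∧ m ∈ pr A})
        (fun n => ((hH n).subset fun A hA => hA.1).image _) (by
        rintro n _ ⟨A, hA, rfl⟩
        exact (hB n hA.1).2 m hA.2)
    choose gC hgC using hcol
    refine ⟨fun n => max (gW n) ((Finset.range n).sup fun m => gC m n), fun s hs hgs => ?_⟩
    obtain ⟨WW, hWW, hWI⟩ := hgW s hs (fun i => (le_max_left _ _).trans (hgs i))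
    have hex : ∀ m, ∃ i, m < s i := fun m =>
      ⟨m + 1, lt_of_lt_of_le (Nat.lt_succ_self m) (hs.id_le (m + 1))⟩
    let k : ℕ → ℕ := fun m => Nat.find (hex m)
    have hk : ∀ m, m < s (k m) := fun m => Nat.find_spec (hex m)
    have hcol2 : ∀ m, ∃ W : ℕ → Ultrafilter ℕ, (∀ j, NP (W j)) ∧ ∀ I : Set ℕ, (∀ j, I ∉ W j) →
        ∃ Z ∈ C m, ∀ X ∈ C m, X ⊆ Z → ∀ i ∈ I, ∀ Y ∈ (fun A => sec A m) ''
          {A | A ∈ H (s (i + k m)) ∧ m ∈ pr A}, ρ m (s (i + k m)) Y X → X ⊆ Y := by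
      intro m
      apply hgC m (fun i => s (i + k m))
      · intro i j hij
        exact hs (by omega)
      · intro i
        have h1 := hgs (i + k m)
        have h2 : m < s (i + k m) := lt_of_lt_of_le (hk m) (hs.monotone (by omega))
        have h3 : gC m (s (i + k m)) ≤ (Finset.range (s (i + k m))).sup
            fun m' => gC m' (s (i + k m)) :=
          Finset.le_sup (f := fun m' => gC m' (s (i + k m))) (Finset.mem_range.2 h2)
        have h4 : i + 1 + k m = i + k m + 1 := by omega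
        rw [h4]
        exact (h3.trans (le_max_right _ _)).trans h1
    choose WC hWC hWCI using hcol2
    let W : ℕ → Ultrafilter ℕ := fun j =>
      if (Nat.unpair j).1 = 0 then WW (Nat.unpair j).2
      else (WC ((Nat.unpair j).1 - 1) (Nat.unpair j).2).map (fun i => i + k ((Nat.unpair j).1 - 1))
    refine ⟨W, fun j => ?_, fun I hI => ?_⟩
    · simp only [W]
      split_ifs with hj
      · exact hWW _
      · intro t ht hmem
        refine hWC _ _ _ ?_ hmem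
        exact ht.preimage (fun a _ b _ hab => by simpa using hab)
    · have hI1 : ∀ j, I ∉ WW j := by
        intro j
        have := hI (Nat.pair 0 j)
        simpa [W] using this
      have hI2 : ∀ m j, {i | i + k m ∈ I} ∉ WC m j := by
        intro m j hmem
        apply hI (Nat.pair (m + 1) j)
        simp only [W, Nat.unpair_pair, Nat.add_sub_cancel, Nat.add_eq_zero_iff, one_ne_zero,
          and_false, if_false]
        exact hmem
      obtain ⟨M, hM, hM'⟩ := hWI I hI1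
      have hZ1 : ∀ m, ∃ Z ∈ C m, (∀ X ∈ C m, X ⊆ Z → ∀ i, i + k m ∈ I → ∀ Y ∈ H (s (i + k m)),
          m ∈ pr Y → ρ m (s (i + k m)) (sec Y m) X → X ⊆ sec Y m) ∧
          ∀ n ≤ m, ∀ Y ∈ H n, m ∈ pr Y → Z ⊆ sec Y m := by
        intro m
        obtain ⟨Z0, hZ0, hZ0'⟩ := hWCI m _ (hI2 m)
        obtain ⟨Z, hZ, hZZ, hZt⟩ := (hV m).inter_finite Z0 hZ0
          (⋃ n ∈ {n | n ≤ m}, {Y | Y ∈ H n ∧ m ∈ pr Y})
          ((finite_le_nat m).biUnion fun n _ => (hH n).subset fun Y hY => hY.1)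
          (fun Y => sec Y m) (by
            intro Y hY
            obtain ⟨n, -, hY1, hY2⟩ := mem_iUnion₂.1 hY
            exact (hB n hY1).2 m hY2)
        refine ⟨Z, hZ, ?_, ?_⟩
        · intro X hX hXZ i hi Y hY hmY hr
          exact hZ0' X hX (hXZ.trans hZZ) i hi _ ⟨Y, ⟨hY, hmY⟩, rfl⟩ hr
        · intro n hn Y hY hmY
          exact hZt Y (mem_biUnion (show n ∈ {n | n ≤ m} from hn) ⟨hY, hmY⟩)
      choose Z hZC hZ1 hZ2 using hZ1
      obtain ⟨h2, h3⟩ := hmk M Z hZC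
      refine ⟨{z : ℕ × ℕ | z.1 ∈ M ∧ z.2 ∈ Z z.1}, ⟨?_, ?_⟩, ?_⟩
      · rw [h2]
        exact hM
      · intro m hm
        rw [h2] at hm
        rw [h3 m hm]
        exact hZC m
      · rintro X ⟨hX, hX'⟩ hXZ i hi Y hY ⟨hr1, hr2⟩ ⟨m, x⟩ hx
        have hprX : pr X ⊆ M := by
          rintro m' ⟨y, hy⟩
          exact (hXZ hy).1
        have hmX : m ∈ pr X := ⟨x, hx⟩
        have hprY : pr X ⊆ pr Y := hM' _ hX hprX i hi _ ⟨Y, hY, rfl⟩ hr1
        have hmY : m ∈ pr Y := hprY hmX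
        have hsec : sec X m ⊆ Z m := fun y hy => (hXZ hy).2
        by_cases hm : m < s i
        · have hki : k m ≤ i := Nat.find_min' (hex m) hm
          obtain ⟨i', rfl⟩ : ∃ i', i = i' + k m := ⟨i - k m, by omega⟩
          exact hZ1 m (sec X m) (hX' m hmX) hsec i' hi Y hY hmY ((hr2 m hm).2 hmY) hx
        · exact hZ2 m (s i) (not_lt.1 hm) Y hY hmY (hsec hx)

end Pool.Agent.TH780.BG
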